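import Pool.Agent.Helper83.EIN2.Goals

set_option autoImplicit false

namespace Pool.Agent.Helper4.EIN2

open Pool.Agent.Helper83.EIN2 Pool.Agent.Helper83.EIN

/-- The algebra of `MLS`. -/
theorem mls_aux (a β t u w y₀ z₀ y₁ z₁ : ℝ) (p : Fin 12 → ℝ) (_ht : 0 < t)
    (pu : 0 < u) (pw : 0 < w) (py₀ : 0 < y₀) (pz₀ : 0 < z₀) (py₁ : 0 < y₁) (pz₁ : 0 < z₁)
    (hu : u = 1 + (1 - t) * β * (1 - t * p 6) - (1 - t) * (1 - β) * (1 - t * p 11))
    (hw : w = 1 + t * a * (1 - t * p 2) - t * (1 - a) * (1 - t * p 3))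
    (hy₀ : y₀ = 1 - t * (1 - a) * (1 - t * p 7) - (1 - t) * (1 - β) * (1 - t * p 1))
    (hz₀ : z₀ = 1 - t * (1 - a) * (1 - t * p 9) - (1 - t) * β * (1 - t * p 0))
    (hy₁ : y₁ = 1 - t * a * (1 - t * p 8) - (1 - t) * (1 - β) * (1 - t * p 5))
    (hz₁ : z₁ = 1 + t * a * (1 - t * p 10) + (1 - t) * β * (1 - t * p 4))
    (e f₁ f₂ f₃ : ℝ)
    (he : e = (1 - t) * ((1 - β) * p 1 + β * p 0) +
      t * ((1 - a) * p 7 + (1 - a) * p 9 + a * p 2 - (1 - a) * p 3))
    (hf₁ : f₁ = (1 - t) * ((1 - β) * p 5 + β * p 4) +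
      t * (a * p 8 + a * p 10 - a * p 2 + (1 - a) * p 3))
    (hf₂ : f₂ = (1 - t) * ((1 - β) * p 1 + (1 - β) * p 5 + β * p 6 - (1 - β) * p 11) +
      t * ((1 - a) * p 7 + a * p 8))
    (hf₃ : f₃ = (1 - t) * (-(β * p 6) + (1 - β) * p 11 + β * p 0 + β * p 4) +
      t * ((1 - a) * p 9 + a * p 10))
    (F0 : e - (z₀ * p 2 - w * p 0) = 0) (F1 : e - (y₀ * p 2 - w * p 1) = 0)
    (F2 : a * (p 0 + p 1) + (1 - t) * p 0 * p 1 + t * (1 - a) * (p 7 * p 0 + p 9 * p 1) -
      ((1 - a) * p 7 + (1 - a) * p 9 + a * p 2 - (1 - a) * p 3) = 0)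
    (F3 : f₁ - (y₁ * p 3 + w * p 5) = 0) (F4 : f₁ - (y₁ * p 4 - z₁ * p 5) = 0)
    (F5 : f₁ - (w * p 4 - z₁ * p 3) = 0)
    (F6 : f₂ - (y₀ * p 8 + y₁ * p 7) = 0) (F7 : f₂ - (y₁ * p 6 - u * p 8) = 0)
    (F8 : f₂ - (y₀ * p 6 - u * p 7) = 0)
    (F9 : f₃ - (u * p 9 + z₀ * p 11) = 0) (F10 : f₃ - (z₀ * p 10 - z₁ * p 9) = 0)
    (F11 : f₃ - (u * p 10 - z₁ * p 11) = 0) :
    (cs w y₀ z₀ = 1 - t * p 0 ∧ cs w z₀ y₀ = 1 - t * p 1 ∧ cs y₀ z₀ w = -1 + t * p 2) ∧
    (cs y₁ z₁ w = 1 - t * p 3 ∧ cs w y₁ z₁ = -1 + t * p 4 ∧ cs w z₁ y₁ = 1 - t * p 5) ∧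
    (cs y₀ y₁ u = -1 + t * p 6 ∧ cs u y₁ y₀ = 1 - t * p 7 ∧ cs u y₀ y₁ = 1 - t * p 8) ∧
    (cs u z₁ z₀ = 1 - t * p 9 ∧ cs u z₀ z₁ = -1 + t * p 10 ∧ cs z₀ z₁ u = 1 - t * p 11) := by
  have E0 : y₀ + z₀ - w = t * e := by rw [hy₀, hz₀, hw, he]; ring
  have E1 : w + y₁ - z₁ = t * f₁ := by rw [hy₁, hz₁, hw, hf₁]; ring
  have E2 : y₀ + y₁ - u = t * f₂ := by rw [hy₁, hy₀, hu, hf₂]; ring
  have E3 : u + z₀ - z₁ = t * f₃ := by rw [hz₁, hz₀, hu, hf₃]; ring
  have G : y₀ * p 0 + z₀ * p 1 - e = 0 := by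
    have : y₀ * p 0 + z₀ * p 1 - e = t * (a * (p 0 + p 1) + (1 - t) * p 0 * p 1 +
      t * (1 - a) * (p 7 * p 0 + p 9 * p 1) -
      ((1 - a) * p 7 + (1 - a) * p 9 + a * p 2 - (1 - a) * p 3)) := by
      rw [hy₀, hz₀, he]; ring
    rw [this, F2, mul_zero]
  -- projection identities
  have P1 : w = y₀ * (1 - t * p 0) + z₀ * (1 - t * p 1) := by linear_combination -E0 + t * G
  have P2 : y₀ = w * (1 - t * p 0) + z₀ * (-1 + t * p 2) := by linear_combination E0 + t * F0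
  have P3 : z₀ = w * (1 - t * p 1) + y₀ * (-1 + t * p 2) := by linear_combination E0 + t * F1
  have Q1 : w = y₁ * (-1 + t * p 4) + z₁ * (1 - t * p 5) := by linear_combination E1 + t * F4
  have Q2 : y₁ = w * (-1 + t * p 4) + z₁ * (1 - t * p 3) := by linear_combination E1 + t * F5
  have Q3 : z₁ = w * (1 - t * p 5) + y₁ * (1 - t * p 3) := by linear_combination -E1 - t * F3
  have R1 : u = y₀ * (1 - t * p 8) + y₁ * (1 - t * p 7) := by linear_combination -E2 - t * F6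
  have R2 : y₀ = u * (1 - t * p 8) + y₁ * (-1 + t * p 6) := by linear_combination E2 + t * F7
  have R3 : y₁ = u * (1 - t * p 7) + y₀ * (-1 + t * p 6) := by linear_combination E2 + t * F8
  have S1 : u = z₀ * (-1 + t * p 10) + z₁ * (1 - t * p 9) := by linear_combination E3 + t * F10
  have S2 : z₀ = u * (-1 + t * p 10) + z₁ * (1 - t * p 11) := by linear_combination E3 + t * F11
  have S3 : z₁ = u * (1 - t * p 9) + z₀ * (1 - t * p 11) := by linear_combination -E3 - t * F9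
  refine ⟨⟨?_, ?_, ?_⟩, ⟨?_, ?_, ?_⟩, ⟨?_, ?_, ?_⟩, ⟨?_, ?_, ?_⟩⟩
  · exact cs_of_proj pw py₀ P1 P2 P3
  · exact cs_of_proj (q := 1 - t * p 0) (p := -1 + t * p 2) pw pz₀ (by linear_combination P1)
      (by linear_combination P3) (by linear_combination P2)
  · exact cs_of_proj (q := 1 - t * p 0) (p := 1 - t * p 1) py₀ pz₀ (by linear_combination P2)
      (by linear_combination P3) (by linear_combination P1)
  · exact cs_of_proj (q := -1 + t * p 4) (p := 1 - t * p 5) py₁ pz₁ (by linear_combination Q2)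
      (by linear_combination Q3) (by linear_combination Q1)
  · exact cs_of_proj pw py₁ Q1 Q2 Q3
  · exact cs_of_proj (q := -1 + t * p 4) (p := 1 - t * p 3) pw pz₁ (by linear_combination Q1)
      (by linear_combination Q3) (by linear_combination Q2)
  · exact cs_of_proj (q := 1 - t * p 8) (p := 1 - t * p 7) py₀ py₁ (by linear_combination R2)
      (by linear_combination R3) (by linear_combination R1)
  · exact cs_of_proj (q := 1 - t * p 8) (p := -1 + t * p 6) pu py₁ (by linear_combination R1)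
      (by linear_combination R3) (by linear_combination R2)
  · exact cs_of_proj (q := 1 - t * p 7) (p := -1 + t * p 6) pu py₀ (by linear_combination R1)
      (by linear_combination R2) (by linear_combination R3)
  · exact cs_of_proj (q := -1 + t * p 10) (p := 1 - t * p 11) pu pz₁ (by linear_combination S1)
      (by linear_combination S3) (by linear_combination S2)
  · exact cs_of_proj (q := 1 - t * p 9) (p := 1 - t * p 11) pu pz₀ (by linear_combination S1)
      (by linear_combination S2) (by linear_combination S3)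
  · exact cs_of_proj (q := -1 + t * p 10) (p := 1 - t * p 9) pz₀ pz₁ (by linear_combination S2)
      (by linear_combination S3) (by linear_combination S1)

theorem mls : Pool.Agent.Helper83.EIN2.MLS := by
  intro a β t p ht ht1 hβ hβ1 hpos hF
  have hF' : ∀ i, FML a β t p i = 0 := fun i ↦ by rw [hF]; rfl
  obtain ⟨⟨h0, h1, h2⟩, ⟨h3, h4, h5⟩, ⟨h6, h7, h8⟩, ⟨h9, h10, h11⟩⟩ :=
    mls_aux a β t (lenML a β t p 0) (lenML a β t p 1) (lenML a β t p 2) (lenML a β t p 3)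
      (lenML a β t p 4) (lenML a β t p 5) p ht (hpos 0) (hpos 1) (hpos 2) (hpos 3) (hpos 4)
      (hpos 5) rfl rfl rfl rfl rfl rfl _ _ _ _ rfl rfl rfl rfl (hF' 0) (hF' 1) (hF' 2) (hF' 3)
      (hF' 4) (hF' 5) (hF' 6) (hF' 7) (hF' 8) (hF' 9) (hF' 10) (hF' 11)
  refine ⟨⟨hpos, ?_, ?_, ?_, ?_, ?_, ?_⟩, ?_⟩
  · rw [h6, h11]
    change 1 + (1 - t) * β * (1 - t * p 6) - (1 - t) * (1 - β) * (1 - t * p 11) = _
    ring
  · rw [h2, h3]
    change 1 + t * a * (1 - t * p 2) - t * (1 - a) * (1 - t * p 3) = _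
    ring
  · rw [h7, h1]
    change 1 - t * (1 - a) * (1 - t * p 7) - (1 - t) * (1 - β) * (1 - t * p 1) = _
    ring
  · rw [h9, h0]
    change 1 - t * (1 - a) * (1 - t * p 9) - (1 - t) * β * (1 - t * p 0) = _
    ring
  · rw [h8, h5]
    change 1 - t * a * (1 - t * p 8) - (1 - t) * (1 - β) * (1 - t * p 5) = _
    ring
  · rw [h10, h4]
    change 1 + t * a * (1 - t * p 10) + (1 - t) * β * (1 - t * p 4) = _
    ring
  · have ht0 : t ≠ 0 := ht.ne'
    funext i
    fin_cases i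
    · change (1 - cs (lenML a β t p 1) (lenML a β t p 2) (lenML a β t p 3)) / t = p 0
      rw [h0]; field_simp; ring
    · change (1 - cs (lenML a β t p 1) (lenML a β t p 3) (lenML a β t p 2)) / t = p 1
      rw [h1]; field_simp; ring
    · change (1 + cs (lenML a β t p 2) (lenML a β t p 3) (lenML a β t p 1)) / t = p 2
      rw [h2]; field_simp; ring
    · change (1 - cs (lenML a β t p 4) (lenML a β t p 5) (lenML a β t p 1)) / t = p 3
      rw [h3]; field_simp; ring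
    · change (1 + cs (lenML a β t p 1) (lenML a β t p 4) (lenML a β t p 5)) / t = p 4
      rw [h4]; field_simp; ring
    · change (1 - cs (lenML a β t p 1) (lenML a β t p 5) (lenML a β t p 4)) / t = p 5
      rw [h5]; field_simp; ring
    · change (1 + cs (lenML a β t p 2) (lenML a β t p 4) (lenML a β t p 0)) / t = p 6
      rw [h6]; field_simp; ring
    · change (1 - cs (lenML a β t p 0) (lenML a β t p 4) (lenML a β t p 2)) / t = p 7
      rw [h7]; field_simp; ring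
    · change (1 - cs (lenML a β t p 0) (lenML a β t p 2) (lenML a β t p 4)) / t = p 8
      rw [h8]; field_simp; ring
    · change (1 - cs (lenML a β t p 0) (lenML a β t p 5) (lenML a β t p 3)) / t = p 9
      rw [h9]; field_simp; ring
    · change (1 + cs (lenML a β t p 0) (lenML a β t p 3) (lenML a β t p 5)) / t = p 10
      rw [h10]; field_simp; ring
    · change (1 - cs (lenML a β t p 3) (lenML a β t p 5) (lenML a β t p 0)) / t = p 11
      rw [h11]; field_simp; ring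

end Pool.Agent.Helper4.EIN2
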